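import Pool.Agent.K3h1.TF.Stm
import Pool.Agent.K3h1.FC.Dbl4

/-! Bricks LOC1, LOC1' of project TF (helper1): square roots of `p^*`. -/

set_option autoImplicit false
set_option linter.all false

namespace Pool.Agent.K3h79.TF

open Pool.Agent.K3h1.TF Pool.Agent.K3h1.FC

theorem leg (p q : ℕ) [Fact p.Prime] [Fact q.Prime] (hp : p ≠ 2) (hq : q ≠ 2) :
    legendreSym q (ps p) = legendreSym p q := by
  have hpo : p % 2 = 1 := Nat.odd_iff.1 ((Fact.out : p.Prime).odd_of_ne_two hp)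
  have hqo : q % 2 = 1 := Nat.odd_iff.1 ((Fact.out : q.Prime).odd_of_ne_two hq)
  have hp1 : (p - 1) / 2 = p / 2 := by omega
  have h1 : legendreSym q ((-1) ^ (p / 2)) = ((-1) ^ (q / 2)) ^ (p / 2) := by
    have h2 := map_pow (legendreSym.hom q) (-1) (p / 2)
    have h3 : legendreSym q (-1) = (-1) ^ (q / 2) := by
      rw [legendreSym.at_neg_one hq, ZMod.χ₄_eq_neg_one_pow hqo]
    rw [← h3]
    exact h2
  rw [ps, hp1, legendreSym.mul, h1, legendreSym.quadratic_reciprocity' hp hq, ← mul_assoc,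
    ← pow_mul, mul_comm (q / 2) (p / 2), ← mul_pow]
  norm_num

theorem ps_ne (p q : ℕ) (hp : p.Prime) (hq : q.Prime) (hpq : q ≠ p) : ¬ (q : ℤ) ∣ ps p := by
  intro h
  have h1 : (ps p).natAbs = p := by
    rw [ps, Int.natAbs_mul, Int.natAbs_pow]
    simp
  have h2 := Int.natAbs_dvd_natAbs.2 h
  rw [h1, Int.natAbs_natCast] at h2
  exact hpq ((Nat.prime_dvd_prime_iff_eq hq hp).1 h2)

theorem cast_ne (p q : ℕ) (hp : p.Prime) (hq : q.Prime) (hpq : q ≠ p) : ((q : ℤ) : ZMod p) ≠ 0 := by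
  rw [Int.cast_natCast, ne_eq, ZMod.natCast_eq_zero_iff]
  intro h
  exact hpq ((Nat.prime_dvd_prime_iff_eq hp hq).1 h).symm

theorem iff_sq (p q : ℕ) (hpp : p.Prime) (hqp : q.Prime) (hp : p ≠ 2) (hq : q ≠ 2) (hpq : q ≠ p) :
    IsSquare ((ps p : ℤ) : ZMod q) ↔ IsSquare (q : ZMod p) := by
  haveI : Fact p.Prime := ⟨hpp⟩
  haveI : Fact q.Prime := ⟨hqp⟩
  have h1 : ((ps p : ℤ) : ZMod q) ≠ 0 := by
    rw [ne_eq, ZMod.intCast_zmod_eq_zero_iff_dvd]
    exact ps_ne p q hpp hqp hpq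
  rw [← legendreSym.eq_one_iff q h1, leg p q hp hq,
    legendreSym.eq_one_iff p (cast_ne p q hpp hqp hpq), Int.cast_natCast]

theorem t_LOC1 : S_LOC1 := by
  intro p hp h3 q iq hqp hsq
  have hq : q.Prime := Fact.out
  have hp2 : p ≠ 2 := by omega
  by_cases hq2 : q = 2
  · subst hq2
    haveI : Fact p.Prime := ⟨hp⟩
    have h8 : p % 8 = 1 ∨ p % 8 = 7 := by
      rw [← ZMod.exists_sq_eq_two_iff hp2]
      exact_mod_cast hsq
    refine sq_two' (ps p) ?_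
    rcases h8 with h | h
    · have h1 : Even ((p - 1) / 2) := ⟨(p - 1) / 4, by omega⟩
      rw [ps, h1.neg_one_pow]
      omega
    · have h1 : Odd ((p - 1) / 2) := ⟨(p - 3) / 4, by omega⟩
      rw [ps, h1.neg_one_pow]
      omega
  · have h1 := (iff_sq p q hp hq hp2 hq2 hqp).2 hsq
    obtain ⟨s, hs⟩ := h1
    have hsc : (((s.val : ℤ)) : ZMod q) = s := by
      rw [Int.cast_natCast, ZMod.natCast_zmod_val]
    have h2 : (q : ℤ) ∣ (s.val : ℤ) ^ 2 - ps p := by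
      rw [← ZMod.intCast_zmod_eq_zero_iff_dvd, Int.cast_sub, Int.cast_pow, hsc, hs]
      ring
    refine sq_odd' q hq2 (ps p) s.val h2 ?_
    intro h
    apply ps_ne p q hp hq hqp
    have h4 : (q : ℤ) ∣ (s.val : ℤ) ^ 2 := dvd_pow h two_ne_zero
    have h5 := dvd_sub h4 h2
    rwa [sub_sub_cancel] at h5

theorem t_LOC1p : S_LOC1' := by
  intro p hp h3 r hr hr2 hrp hns h
  exact hns ((iff_sq p r hp hr (by omega) hr2 hrp).1 h)

end Pool.Agent.K3h79.TF
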